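import Pool.Agent.X197.NFTri2

set_option autoImplicit false
set_option linter.unusedVariables false

open CategoryTheory Topology Set Filter

universe u

namespace Pool.Agent.Results.MP_92e33a_gt.SkeletalNotOpen

open Pool.Agent.X197.NF

/-- The discrete space with `n` points. -/
abbrev Disc (n : ℕ) : CompHaus.{u} := CompHaus.of (ULift.{u} (Fin n))

/-- `F` has degree at most `n`: every element of every `F X` is in the image of `F ξ` for some map
`ξ` from the discrete space with `n` points to `X`. -/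
def DegreeLe (F : CompHaus.{u} ⥤ CompHaus.{u}) (n : ℕ) : Prop :=
  ∀ (X : CompHaus.{u}) (a : F.obj X), ∃ ξ : Disc n ⟶ X, a ∈ range (fn (F.map ξ))

/-- The segment. -/
abbrev Seg : CompHaus.{u} := CompHaus.of (ULift.{u} unitInterval)

/-- The segment times two points. -/
abbrev SegTwo : CompHaus.{u} := CompHaus.of (ULift.{u} unitInterval × ULift.{u} Bool)

/-- The projection. -/
def pr : SegTwo.{u} ⟶ Seg.{u} :=
  CompHausLike.ofHom _ (⟨Prod.fst, continuous_fst⟩ :
    C(ULift.{u} unitInterval × ULift.{u} Bool, ULift.{u} unitInterval))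

theorem tri_degree : DegreeLe Tri.{u} 2 := by
  intro X a
  let ξ : Disc 2 ⟶ X := CompHausLike.ofHom _ (⟨fun i => if i.down = 0 then c1 a else c2 a,
    continuous_of_discreteTopology⟩ : C(ULift.{u} (Fin 2), X))
  have h0 : fn ξ (ULift.up 0) = c1 a := by
    show (if (0 : Fin 2) = 0 then c1 a else c2 a) = c1 a
    simp
  have h1 : fn ξ (ULift.up 1) = c2 a := by
    show (if (1 : Fin 2) = 0 then c1 a else c2 a) = c2 a
    simp
  refine ⟨ξ, ?_⟩
  rcases c3_eq a with h | h
  · exact ⟨mk3 (X := Disc 2) (ULift.up 0) (ULift.up 1) (ULift.up 0) (Or.inl rfl),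
      tri_ext h0 h1 (h0.trans h.symm)⟩
  · exact ⟨mk3 (X := Disc 2) (ULift.up 0) (ULift.up 1) (ULift.up 1) (Or.inr rfl),
      tri_ext h0 h1 (h1.trans h.symm)⟩

theorem tri_not_open : ¬ OpenFunctor Tri.{u} := by
  intro h
  have h1 := h pr.{u} (show IsOpenMap Prod.fst from isOpenMap_fst)
    (fun t => ⟨((t, ULift.up true) : ULift.{u} unitInterval × ULift.{u} Bool), rfl⟩)
  -- the open set
  let U : Set (Tri.{u}.obj SegTwo.{u} : CompHaus.{u}) :=
    {p | (show ULift.{u} unitInterval × ULift.{u} Bool from c2 p).2 = ULift.up true ∧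
      (show ULift.{u} unitInterval × ULift.{u} Bool from c3 p).2 = ULift.up false}
  have hU : IsOpen U := by
    have ht : ∀ b : ULift.{u} Bool,
        IsOpen {x : ULift.{u} unitInterval × ULift.{u} Bool | x.2 = b} := fun b =>
      (isOpen_discrete ({b} : Set (ULift.{u} Bool))).preimage continuous_snd
    have h2 : IsOpen {p : (Tri.{u}.obj SegTwo.{u} : CompHaus.{u}) |
        (show ULift.{u} unitInterval × ULift.{u} Bool from c2 p).2 = ULift.up true} :=
      (ht (ULift.up true)).preimage (continuous_c2 (X := SegTwo.{u}))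
    have h3 : IsOpen {p : (Tri.{u}.obj SegTwo.{u} : CompHaus.{u}) |
        (show ULift.{u} unitInterval × ULift.{u} Bool from c3 p).2 = ULift.up false} :=
      (ht (ULift.up false)).preimage (continuous_c3 (X := SegTwo.{u}))
    exact h2.inter h3
  have hV := h1 U hU
  set V := fn (Tri.map pr.{u}) '' U with hVdef
  have hVeq : ∀ q ∈ V, c3 q = c1 q := by
    rintro _ ⟨p, ⟨hp1, hp2⟩, rfl⟩
    rcases c3_eq p with h2 | h2
    · show fn pr (c3 p) = fn pr (c1 p)
      rw [h2]
    · exfalso
      rw [h2, hp1] at hp2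
      exact Bool.noConfusion (congrArg ULift.down hp2)
  -- a path of elements
  let γ : ULift.{u} unitInterval → (Tri.{u}.obj Seg.{u} : CompHaus.{u}) := fun t =>
    mk3 (X := Seg) (ULift.up 0) t t (Or.inr rfl)
  have hγ : Continuous γ :=
    Continuous.subtype_mk (continuous_const.prodMk (continuous_id.prodMk continuous_id)) _
  have h0 : γ (ULift.up 0) ∈ V := by
    refine ⟨mk3 (X := SegTwo)
      ((ULift.up 0, ULift.up false) : ULift.{u} unitInterval × ULift.{u} Bool)
      ((ULift.up 0, ULift.up true) : ULift.{u} unitInterval × ULift.{u} Bool)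
      ((ULift.up 0, ULift.up false) : ULift.{u} unitInterval × ULift.{u} Bool) (Or.inl rfl),
      ⟨rfl, rfl⟩, rfl⟩
  -- points close to zero
  have hup : Continuous (ULift.up : unitInterval → ULift.{u} unitInterval) := continuous_uliftUp
  have hop : IsOpen ((γ ∘ ULift.up) ⁻¹' V) := hV.preimage (hγ.comp hup)
  have hne : (𝓝[≠] (0 : unitInterval)).NeBot := inferInstance
  have hev : ∀ᶠ t in 𝓝[≠] (0 : unitInterval), (γ ∘ ULift.up) t ∈ V :=
    (hop.mem_nhds h0 : _ ∈ 𝓝 (0 : unitInterval)) |> fun h => nhdsWithin_le_nhds h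
  obtain ⟨t, ht1, ht2⟩ := (hev.and self_mem_nhdsWithin).exists
  have h5 : (ULift.up t : ULift.{u} unitInterval) = ULift.up 0 := hVeq _ ht1
  exact ht2 (congrArg ULift.down h5)

/-- **Negative answer to Q1**: there is a finitary normal functor of finite degree (at most `2`)
which is skeletal but not open. -/
theorem result : ∃ F : CompHaus.{u} ⥤ CompHaus.{u},
    IsNormal F ∧ Finitary F ∧ DegreeLe F 2 ∧ SkeletalFunctor F ∧ ¬ OpenFunctor F :=
  ⟨Tri, tri_normal, tri_finitary, tri_degree, tri_skeletal, tri_not_open⟩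

end Pool.Agent.Results.MP_92e33a_gt.SkeletalNotOpen
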